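import Pool.Agent.P.MP_afd974_lc.Bern

set_option autoImplicit false

namespace Pool.Agent.Results.MP_afd974_lc.Amenable

/-- Amenability of a discrete group, in the form of the Følner condition. -/
def Folner (H : Type) [Group H] : Prop :=
  ∀ (K : Finset H) (δ : ℝ), 0 < δ → ∃ T : Finset H, T.Nonempty ∧
    ∀ k ∈ K, (Set.ncard {x : H | x ∈ T ∧ k * x ∉ T} : ℝ) ≤ δ * (T.card : ℝ)

/-- The labelling problem `(S, Fin n, A)` has an a.e. measurable solution on every free Borel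
action with respect to every Borel probability measure. -/
def InMeasure {Γ : Type} [Group Γ] {n : ℕ} (S : Finset Γ) (A : Set (S → Fin n)) : Prop :=
  ∀ (X : Type) [MeasurableSpace X] [StandardBorelSpace X] [MulAction Γ X],
    (∀ g : Γ, Measurable (fun x : X => g • x)) →
    (∀ (g : Γ) (x : X), g • x = x → g = 1) →
    ∀ μ : MeasureTheory.Measure X, MeasureTheory.IsProbabilityMeasure μ →
    ∃ f : X → Fin n, Measurable f ∧ ∀ᵐ x ∂μ, (fun s : S => f ((s : Γ) • x)) ∈ A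

/-- The same for free Borel actions that preserve the probability measure. -/
def InPmp {Γ : Type} [Group Γ] {n : ℕ} (S : Finset Γ) (A : Set (S → Fin n)) : Prop :=
  ∀ (X : Type) [MeasurableSpace X] [StandardBorelSpace X] [MulAction Γ X],
    (∀ g : Γ, Measurable (fun x : X => g • x)) →
    (∀ (g : Γ) (x : X), g • x = x → g = 1) →
    ∀ μ : MeasureTheory.Measure X, MeasureTheory.IsProbabilityMeasure μ →
    (∀ g : Γ, μ.map (fun x : X => g • x) = μ) →
    ∃ f : X → Fin n, Measurable f ∧ ∀ᵐ x ∂μ, (fun s : S => f ((s : Γ) • x)) ∈ A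

/-- The problem has an a.e. measurable solution on the Bernoulli shift `[0,1]^Γ`. -/
def InFiid {Γ : Type} [Group Γ] {n : ℕ} (S : Finset Γ) (A : Set (S → Fin n)) : Prop :=
  ∃ f : (Γ → unitInterval) → Fin n, Measurable f ∧
    ∀ᵐ ω ∂(MeasureTheory.Measure.infinitePi
        (fun _ : Γ => (MeasureTheory.volume : MeasureTheory.Measure unitInterval))),
      (fun s : S => f (fun γ : Γ => ω (γ * (s : Γ)))) ∈ A

open Pool.Agent.P.MP_afd974_lc in
theorem result (Γ : Type) [Group Γ] [Countable Γ] (H : Subgroup Γ) (hH : Folner H)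
    (n : ℕ) (S : Finset Γ) (hS : ∀ s ∈ S, ∀ t ∈ S, s * t⁻¹ ∈ H) (A : Set (S → Fin n)) :
    List.TFAE [InMeasure S A, InPmp S A, InFiid S A] := by
  classical
  have hF : ∀ δ : ℝ, 0 < δ → ∃ T : Finset Γ, T.Nonempty ∧ ∀ s ∈ S, ∀ t ∈ S,
      ({x ∈ (T : Set Γ) | s * t⁻¹ * x ∉ T}.ncard : ℝ) ≤ δ * T.card := by
    intro δ hδ
    obtain ⟨T, hT, h⟩ := hH (Finset.subtype (fun x => x ∈ H)
      ((S ×ˢ S).image fun p : Γ × Γ => p.1 * p.2⁻¹)) δ hδ
    refine ⟨T.map (Function.Embedding.subtype _), hT.map, fun s hs t ht => ?_⟩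
    have h1 := h ⟨s * t⁻¹, hS s hs t ht⟩ (Finset.mem_subtype.2 (Finset.mem_image.2
      ⟨(s, t), Finset.mem_product.2 ⟨hs, ht⟩, rfl⟩))
    rw [Finset.card_map]
    refine le_trans (le_of_eq ?_) h1
    rw [← Set.ncard_image_of_injective _ (Subtype.val_injective (p := fun x => x ∈ H))]
    congr 2
    ext x
    simp only [Finset.coe_map, Function.Embedding.coe_subtype, Set.mem_image, Finset.mem_coe,
      Finset.mem_map, Set.mem_ofPred_eq, not_exists, not_and]
    constructor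
    · rintro ⟨⟨y, hy, rfl⟩, h2⟩
      exact ⟨y, ⟨hy, fun h3 => h2 _ h3 rfl⟩, rfl⟩
    · rintro ⟨y, ⟨hy, h2⟩, rfl⟩
      refine ⟨⟨y, hy, rfl⟩, fun z hz h3 => h2 ?_⟩
      have : z = ⟨s * t⁻¹, hS s hs t ht⟩ * y := Subtype.ext h3
      exact this ▸ hz
  tfae_have 1 → 2 := fun h X _ _ _ h1 h2 μ h3 _ => h X h1 h2 μ h3
  tfae_have 2 → 3 := fun h => unit_of_coin (coin_of_pmp h)
  tfae_have 3 → 1 := fun h X _ _ _ h1 h2 μ _ => solve_of_coin (coin_of_unit h) hF X h1 h2 μ
  tfae_finish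

end Pool.Agent.Results.MP_afd974_lc.Amenable
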